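import Pool.Agent.Interp.Basic

set_option autoImplicit false

namespace Pool.Agent.Results.MP_c109b8_an.SingularInner

open Complex ComplexConjugate Metric Filter Topology Pool.Agent.Interp

/-- bounded analytic functions on the unit disc -/
def Hinf (g : ℂ → ℂ) : Prop :=
  DifferentiableOn ℂ g (ball (0 : ℂ) 1) ∧ ∃ M : ℝ, ∀ z ∈ ball (0 : ℂ) 1, ‖g z‖ ≤ M

/-- the supremum norm over the unit disc -/
noncomputable def hnorm (g : ℂ → ℂ) : ℝ := ⨆ z : ball (0 : ℂ) 1, ‖g z‖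

/-- Blaschke sequences of distinct points -/
def IsBlaschkeSeq (z : ℕ → ℂ) : Prop :=
  (∀ n, z n ∈ ball (0 : ℂ) 1) ∧ Function.Injective z ∧ Summable (fun n => 1 - ‖z n‖)

/-- `g` is an `H^∞` function with the same values as `f` at the points `z n` -/
def IsInterp (f : ℂ → ℂ) (z : ℕ → ℂ) (g : ℂ → ℂ) : Prop :=
  Hinf g ∧ ∀ n, g (z n) = f (z n)

/-- minimal-norm interpolants -/
def IsMinimal (f : ℂ → ℂ) (z : ℕ → ℂ) (g : ℂ → ℂ) : Prop :=
  IsInterp f z g ∧ ∀ g', IsInterp f z g' → hnorm g ≤ hnorm g'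

/-- Blaschke products: the zeros `a j` are indexed by a set `J` of natural numbers (finite or
infinite, possibly empty), repetitions allowed. -/
def IsBlaschkeProduct (B : ℂ → ℂ) : Prop :=
  ∃ (θ : ℝ) (k : ℕ) (J : Set ℕ) (a : J → ℂ), (∀ j, a j ≠ 0 ∧ ‖a j‖ < 1) ∧
    Summable (fun j => 1 - ‖a j‖) ∧
    ∀ z ∈ ball (0 : ℂ) 1, ∃ P : ℂ,
      HasProd (fun j => (‖a j‖ : ℂ) / a j * ((a j - z) / (1 - conj (a j) * z))) P ∧
      B z = exp (θ * I) * z ^ k * P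

lemma hnorm_le {g : ℂ → ℂ} {M : ℝ} (h : ∀ z ∈ ball (0 : ℂ) 1, ‖g z‖ ≤ M) : hnorm g ≤ M := by
  have : Nonempty (ball (0 : ℂ) 1) := ⟨⟨0, by simp⟩⟩
  exact ciSup_le (fun z => h z z.2)

lemma le_hnorm {g : ℂ → ℂ} (hg : Hinf g) {z : ℂ} (hz : z ∈ ball (0 : ℂ) 1) : ‖g z‖ ≤ hnorm g := by
  obtain ⟨M, hM⟩ := hg.2
  exact le_ciSup (f := fun z : ball (0 : ℂ) 1 => ‖g z‖) ⟨M, by
    rintro _ ⟨x, rfl⟩
    exact hM x x.2⟩ ⟨z, hz⟩

lemma S_Hinf : Hinf S := ⟨S_diff, 1, fun _ hz => S_norm_le hz⟩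

lemma one_le_hnorm {g : ℂ → ℂ} (hg : IsInterp S node g) : 1 ≤ hnorm g := by
  have t : Tendsto (fun m => ‖S (node (Nat.pair 0 m))‖) atTop (𝓝 ‖S (zt 0)‖) :=
    ((S_cont (zt_ne 0)).tendsto.comp (node_tendsto 0)).norm
  have h1 : ‖S (zt 0)‖ = 1 := by
    rw [S_norm _ (zt_ne 0), zt_norm]; simp
  rw [h1] at t
  refine le_of_tendsto t (Eventually.of_forall fun m => ?_)
  rw [← hg.2]
  exact le_hnorm hg.1 (node_mem _)

lemma control {g : ℂ → ℂ} (hd : DifferentiableOn ℂ g D) (hb : ∀ z ∈ D, ‖g z‖ ≤ 1)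
    (hi : ∀ n, g (node n) = S (node n)) :
    ∀ z ∈ D, ∀ ζ : ℂ, ‖ζ‖ = 1 → ζ ≠ 1 →
      ‖g z - (fun _ => (1 : ℂ)) z * S ζ‖ ^ 2 * (1 - ‖z‖ ^ 2) ≤ 2 * ‖z - ζ‖ ^ 2 / ‖1 - ζ‖ ^ 2 := by
  apply to_boundary
  intro z hz k
  have h1 := SP g hd hb hz (node_mem k)
  rw [hi] at h1
  rw [one_mul]
  refine h1.trans ?_
  have h2 : 0 ≤ 1 - ‖S (node k)‖ ^ 2 := by
    have := S_norm_le (node_mem k)
    nlinarith [norm_nonneg (S (node k))]
  apply mul_le_mul_of_nonneg_right _ h2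
  apply mul_le_of_le_one_right (by positivity)
  nlinarith [norm_nonneg (g z)]

/-- There are `f ∈ H^∞` and a Blaschke sequence `z` such that the minimal-norm interpolant is
unique but is not a constant multiple of a Blaschke product. -/
theorem result : ∃ (f : ℂ → ℂ) (z : ℕ → ℂ), Hinf f ∧ IsBlaschkeSeq z ∧
    ∃ g : ℂ → ℂ, IsMinimal f z g ∧
      (∀ g', IsMinimal f z g' → ∀ x ∈ ball (0 : ℂ) 1, g' x = g x) ∧
      ¬ ∃ (c : ℂ) (B : ℂ → ℂ), IsBlaschkeProduct B ∧ ∀ x ∈ ball (0 : ℂ) 1, g x = c * B x := by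
  have hS1 : hnorm S ≤ 1 := hnorm_le (fun z hz => S_norm_le hz)
  refine ⟨S, node, S_Hinf, ⟨node_mem, node_inj, ?_⟩, S, ⟨⟨S_Hinf, fun _ => rfl⟩, ?_⟩, ?_, ?_⟩
  · have : (fun n => 1 - ‖node n‖) = fun n => ((1 : ℝ) / 2) ^ (n + 1) := by
      funext n; rw [node_norm]; ring
    rw [this]
    exact (summable_nat_add_iff 1).mpr summable_geometric_two
  · intro g' hg'
    exact hS1.trans (one_le_hnorm hg')
  · intro g' hg' x hx
    have h1 : hnorm g' ≤ 1 := (hg'.2 S ⟨S_Hinf, fun _ => rfl⟩).trans hS1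
    have hb : ∀ z ∈ D, ‖g' z‖ ≤ 1 := fun z hz => (le_hnorm hg'.1.1 hz).trans h1
    have c1 := control hg'.1.1.1 hb hg'.1.2
    have c2 := control S_diff (fun z hz => S_norm_le hz) (fun _ => rfl)
    have := core g' (fun _ => 1) hg'.1.1.1 (differentiableOn_const _) (fun z _ => by simp) c1
      (by simpa only [one_mul] using c2) x hx
    rw [this, one_mul]
  · rintro ⟨c, B, ⟨θ, k, J, a, ha, hsum, hP⟩, hB⟩
    have hJ : IsEmpty J := by
      constructor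
      intro j
      have hj : a j ∈ ball (0 : ℂ) 1 := mem_D.mpr (ha j).2
      obtain ⟨P, hP1, hP2⟩ := hP (a j) hj
      have h0 : P = 0 := by
        refine hP1.unique (hasProd_zero_of_exists_eq_zero ⟨j, ?_⟩)
        rw [sub_self, zero_div, mul_zero]
      have := hB (a j) hj
      rw [hP2, h0, mul_zero, mul_zero] at this
      exact S_ne _ this
    have hval : ∀ x ∈ ball (0 : ℂ) 1, S x = c * (exp (θ * I) * x ^ k) := by
      intro x hx
      obtain ⟨P, hP1, hP2⟩ := hP x hx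
      have h1 : P = 1 := hP1.unique hasProd_empty
      rw [hB x hx, hP2, h1, mul_one]
    have hx0 : (0 : ℂ) ∈ ball (0 : ℂ) 1 := by simp
    have hx1 : (1 / 2 : ℂ) ∈ ball (0 : ℂ) 1 := by
      rw [mem_ball_zero_iff]; norm_num
    have v0 := hval 0 hx0
    have v1 := hval (1 / 2) hx1
    have hk : k = 0 := by
      by_contra hk
      rw [zero_pow hk, mul_zero, mul_zero] at v0
      exact S_ne _ v0
    rw [hk, pow_zero] at v0 v1
    have hv : S 0 = S (1 / 2) := by rw [v0, v1]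
    have n0 := S_norm 0 (by norm_num)
    have n1 := S_norm (1 / 2) (by norm_num)
    rw [hv, n1] at n0
    have := Real.exp_injective n0
    norm_num at this

end Pool.Agent.Results.MP_c109b8_an.SingularInner
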